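import Pool.Agent.Run7.h669.Dil.Main

/-!
MP_55f3b9_an, Q1, negated form: a connected component of the triangulable locus of a stratum of
dilation surfaces in which no `SL₂(ℝ)`-orbit is dense.

The definitions (`DSurf`, `DSurf.InStratum`, `Moduli`, `Triangulable`, the action of `SL2` on
`Moduli`) are in `Pool/Agent/Run7/h669/Dil/Defs.lean`.
-/

namespace Pool.Agent.Results.MP_55f3b9_an.NoDenseOrbit

open Run7.h669.Dil

/-- The triangulable locus of the stratum of dilation surfaces of genus four with three cone points
of angle `6π` has a connected component which is not the closure, in the triangulable locus, of any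
`SL₂(ℝ)`-orbit contained in it. -/
theorem result : ∃ x₀ ∈ Triangulable 4 [3, 3, 3],
    ∀ x ∈ connectedComponentIn (Triangulable 4 [3, 3, 3]) x₀,
      closure (MulAction.orbit SL2 x) ∩ Triangulable 4 [3, 3, 3] ≠
        connectedComponentIn (Triangulable 4 [3, 3, 3]) x₀ :=
  main

end Pool.Agent.Results.MP_55f3b9_an.NoDenseOrbit
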